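import Pool.Agent.K1H54.GC.Stm3
import Pool.Agent.H353R2.Z2

/-!
Project GC, third part: the pairs `(m, h)`, `(m', h')` with the same kernel.
-/

set_option autoImplicit false

namespace Pool.Agent.K1H36.GC

open Finset Pool.Agent.K1H54.GC

/-- all the pairs -/
def TT (B j : ℕ) : Finset (ℕ × ℕ) := (Icc 1 B ×ˢ Icc 1 j).filter fun t => t.2 < t.1

lemma mem_TT {B j : ℕ} {t : ℕ × ℕ} :
    t ∈ TT B j ↔ (1 ≤ t.1 ∧ t.1 ≤ B) ∧ (1 ≤ t.2 ∧ t.2 ≤ j) ∧ t.2 < t.1 := by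
  unfold TT
  rw [mem_filter, mem_product, mem_Icc, mem_Icc, and_assoc]

/-- the gcd -/
def gg (t : ℕ × ℕ) : ℕ := Nat.gcd t.1 (t.1 - t.2)

def ff (t : ℕ × ℕ) : ℕ × ℕ := (t.1 / gg t, t.2 / gg t)

/-- the kernel -/
def ker (x : ℕ × ℕ) : ℕ := x.1 * (x.1 - x.2)

lemma gg_pos {t : ℕ × ℕ} (h : 1 ≤ t.1) : 0 < gg t := Nat.gcd_pos_of_pos_left _ h

lemma ff_spec1 (t : ℕ × ℕ) : t.1 = gg t * (ff t).1 :=
  (Nat.mul_div_cancel' (Nat.gcd_dvd_left _ _)).symm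

lemma ff_spec2 {t : ℕ × ℕ} (h : t.2 < t.1) : t.2 = gg t * (ff t).2 := by
  have h1 : gg t ∣ t.1 := Nat.gcd_dvd_left _ _
  have h2 : gg t ∣ t.1 - t.2 := Nat.gcd_dvd_right _ _
  have h3 : gg t ∣ t.2 := by
    have := Nat.dvd_sub h1 h2
    rwa [Nat.sub_sub_self h.le] at this
  exact (Nat.mul_div_cancel' h3).symm

lemma ff_mem {B j : ℕ} {t : ℕ × ℕ} (ht : t ∈ TT B j) : ff t ∈ TT B j := by
  rw [mem_TT] at ht ⊢
  obtain ⟨⟨h1, h2⟩, ⟨h3, h4⟩, h5⟩ := ht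
  have e1 := ff_spec1 t
  have e2 := ff_spec2 h5
  have hg := gg_pos h1
  refine ⟨⟨?_, ?_⟩, ⟨?_, ?_⟩, ?_⟩
  · rw [Nat.one_le_iff_ne_zero]
    intro h
    rw [h, mul_zero] at e1
    omega
  · exact (Nat.div_le_self _ _).trans h2
  · rw [Nat.one_le_iff_ne_zero]
    intro h
    rw [h, mul_zero] at e2
    omega
  · exact (Nat.div_le_self _ _).trans h4
  · rw [e1, e2] at h5
    exact Nat.lt_of_mul_lt_mul_left h5

lemma ker_spec {t : ℕ × ℕ} (h : t.2 < t.1) : t.1 * (t.1 - t.2) = ker (ff t) * gg t ^ 2 := by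
  have e1 := ff_spec1 t
  have e2 := ff_spec2 h
  have e3 : t.1 - t.2 = gg t * ((ff t).1 - (ff t).2) := by
    rw [Nat.mul_sub, ← e1, ← e2]
  unfold ker
  rw [e3]
  nth_rewrite 1 [e1]
  ring

/-- the size of a fibre -/
def fib (B j : ℕ) (x : ℕ × ℕ) : ℕ := ((TT B j).filter fun t => ff t = x).card

/-- the pairs with a given kernel -/
def SS (B j k : ℕ) : Finset (ℕ × ℕ) := (TT B j).filter fun x => ker x = k

lemma rr_le (B j k : ℕ) : rr B j k ≤ ∑ x ∈ SS B j k, fib B j x := by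
  have h1 : ((Icc 1 B ×ˢ Icc 1 j).filter fun t =>
      t.2 < t.1 ∧ t.1 * (t.1 - t.2) = k * (Nat.gcd t.1 (t.1 - t.2)) ^ 2) ⊆
      (TT B j).filter fun t => ff t ∈ SS B j k := by
    intro t ht
    rw [mem_filter, mem_product, mem_Icc, mem_Icc] at ht
    obtain ⟨⟨h1, h2⟩, h3, h4⟩ := ht
    have hT : t ∈ TT B j := mem_TT.2 ⟨h1, h2, h3⟩
    rw [mem_filter, SS, mem_filter]
    refine ⟨hT, ff_mem hT, ?_⟩
    have h5 := ker_spec h3
    rw [h4] at h5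
    have hg := gg_pos (t := t) h1.1
    have : 0 < gg t ^ 2 := by positivity
    exact (Nat.eq_of_mul_eq_mul_right this h5).symm
  calc rr B j k ≤ ((TT B j).filter fun t => ff t ∈ SS B j k).card := card_le_card h1
    _ = ∑ x ∈ SS B j k, (((TT B j).filter fun t => ff t ∈ SS B j k).filter
        fun t => ff t = x).card := card_eq_sum_card_fiberwise fun t ht => (mem_filter.1 ht).2
    _ ≤ ∑ x ∈ SS B j k, fib B j x := by
        refine sum_le_sum fun x _ => card_le_card ?_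
        intro t ht
        rw [mem_filter, mem_filter] at ht
        exact mem_filter.2 ⟨ht.1.1, ht.2⟩

lemma card_SS (B j k : ℕ) (hk : 1 ≤ k) : (SS B j k).card ≤ k.divisors.card := by
  refine card_le_card_of_injOn Prod.fst ?_ ?_
  · intro x hx
    have hx' := mem_filter.1 hx
    exact Nat.mem_divisors.2 ⟨⟨_, hx'.2.symm⟩, by omega⟩
  · intro x hx y hy hxy
    have hx' := mem_filter.1 hx
    have hy' := mem_filter.1 hy
    have hx1 := mem_TT.1 hx'.1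
    have hy1 := mem_TT.1 hy'.1
    have hxy' : x.1 = y.1 := hxy
    have h1 : x.1 * (x.1 - x.2) = x.1 * (y.1 - y.2) := by
      have a := hx'.2
      have b := hy'.2
      unfold ker at a b
      rw [a, ← b, hxy']
    have h2 := Nat.eq_of_mul_eq_mul_left (show 0 < x.1 by omega) h1
    exact Prod.ext hxy' (by omega)

lemma fib_le1 (B j : ℕ) {x : ℕ × ℕ} (hx : x ∈ TT B j) : fib B j x ≤ B / x.1 := by
  have hx' := mem_TT.1 hx
  have : fib B j x ≤ (Icc 1 (B / x.1)).card := by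
    refine card_le_card_of_injOn gg ?_ ?_
    · intro t ht
      obtain ⟨h1, h2⟩ := mem_filter.1 ht
      rw [mem_TT] at h1
      have e1 := ff_spec1 t
      rw [h2] at e1
      rw [mem_coe, mem_Icc]
      refine ⟨gg_pos h1.1.1, ?_⟩
      rw [Nat.le_div_iff_mul_le (by omega), ← e1]
      exact h1.1.2
    · intro t ht s hs hts
      obtain ⟨h1, h2⟩ := mem_filter.1 ht
      obtain ⟨h3, h4⟩ := mem_filter.1 hs
      rw [mem_TT] at h1 h3
      have e1 := ff_spec1 t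
      have e2 := ff_spec2 h1.2.2
      have e3 := ff_spec1 s
      have e4 := ff_spec2 h3.2.2
      rw [h2] at e1 e2
      rw [h4, ← hts] at e3 e4
      exact Prod.ext (e1.trans e3.symm) (e2.trans e4.symm)
  simpa using this

lemma fib_le2 (B j : ℕ) {x : ℕ × ℕ} (hx : x ∈ TT B j) : fib B j x ≤ j / x.2 := by
  have hx' := mem_TT.1 hx
  have : fib B j x ≤ (Icc 1 (j / x.2)).card := by
    refine card_le_card_of_injOn gg ?_ ?_
    · intro t ht
      obtain ⟨h1, h2⟩ := mem_filter.1 ht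
      rw [mem_TT] at h1
      have e1 := ff_spec2 h1.2.2
      rw [h2] at e1
      rw [mem_coe, mem_Icc]
      refine ⟨gg_pos h1.1.1, ?_⟩
      rw [Nat.le_div_iff_mul_le (by omega), ← e1]
      exact h1.2.1.2
    · intro t ht s hs hts
      obtain ⟨h1, h2⟩ := mem_filter.1 ht
      obtain ⟨h3, h4⟩ := mem_filter.1 hs
      rw [mem_TT] at h1 h3
      have e1 := ff_spec1 t
      have e2 := ff_spec2 h1.2.2
      have e3 := ff_spec1 s
      have e4 := ff_spec2 h3.2.2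
      rw [h2] at e1 e2
      rw [h4, ← hts] at e3 e4
      exact Prod.ext (e1.trans e3.symm) (e2.trans e4.symm)
  simpa using this

lemma fib_sq (B j : ℕ) {x : ℕ × ℕ} (hx : x ∈ TT B j) :
    (fib B j x : ℝ) ^ 2 ≤ ((B : ℝ) * (x.1 : ℝ)⁻¹) * ((j : ℝ) * (x.2 : ℝ)⁻¹) := by
  have h1 : (fib B j x : ℝ) ≤ (B : ℝ) * (x.1 : ℝ)⁻¹ := by
    have : (fib B j x : ℝ) ≤ ((B / x.1 : ℕ) : ℝ) := by exact_mod_cast fib_le1 B j hx
    exact this.trans (by simpa [div_eq_mul_inv] using (Nat.cast_div_le (α := ℝ) (m := B) (n := x.1)))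
  have h2 : (fib B j x : ℝ) ≤ (j : ℝ) * (x.2 : ℝ)⁻¹ := by
    have : (fib B j x : ℝ) ≤ ((j / x.2 : ℕ) : ℝ) := by exact_mod_cast fib_le2 B j hx
    exact this.trans (by simpa [div_eq_mul_inv] using (Nat.cast_div_le (α := ℝ) (m := j) (n := x.2)))
  have h0 : (0 : ℝ) ≤ (fib B j x : ℝ) := Nat.cast_nonneg _
  rw [sq]
  exact mul_le_mul h1 h2 h0 (h0.trans h1)

lemma harm (B : ℕ) : ∑ u ∈ Icc 1 B, ((u : ℝ))⁻¹ ≤ 1 + Real.log B := by
  have h := harmonic_le_one_add_log B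
  rw [harmonic_eq_sum_Icc] at h
  push_cast at h
  exact h

lemma sum_fib (B j : ℕ) : ∑ x ∈ TT B j, (fib B j x : ℝ) ^ 2 ≤
    ((B : ℝ) * j) * ((1 + Real.log B) * (1 + Real.log j)) := by
  calc ∑ x ∈ TT B j, (fib B j x : ℝ) ^ 2
      ≤ ∑ x ∈ TT B j, ((B : ℝ) * (x.1 : ℝ)⁻¹) * ((j : ℝ) * (x.2 : ℝ)⁻¹) :=
        sum_le_sum fun x hx => fib_sq B j hx
    _ ≤ ∑ x ∈ Icc 1 B ×ˢ Icc 1 j, ((B : ℝ) * (x.1 : ℝ)⁻¹) * ((j : ℝ) * (x.2 : ℝ)⁻¹) :=
        sum_le_sum_of_subset_of_nonneg (filter_subset _ _) fun x _ _ => by positivity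
    _ = (∑ u ∈ Icc 1 B, (B : ℝ) * (u : ℝ)⁻¹) * ∑ d ∈ Icc 1 j, (j : ℝ) * (d : ℝ)⁻¹ := by
        rw [sum_mul_sum, sum_product]
    _ = ((B : ℝ) * j) * ((∑ u ∈ Icc 1 B, ((u : ℝ))⁻¹) * ∑ d ∈ Icc 1 j, ((d : ℝ))⁻¹) := by
        rw [← mul_sum, ← mul_sum]; ring
    _ ≤ ((B : ℝ) * j) * ((1 + Real.log B) * (1 + Real.log j)) := by
        refine mul_le_mul_of_nonneg_left ?_ (by positivity)
        exact mul_le_mul (harm B) (harm j) (sum_nonneg fun _ _ => by positivity)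
          (add_nonneg zero_le_one (Real.log_natCast_nonneg B))

lemma rr_sq (B j k : ℕ) (hk : 1 ≤ k) : (rr B j k : ℝ) ^ 2 ≤
    (k.divisors.card : ℝ) * ∑ x ∈ SS B j k, (fib B j x : ℝ) ^ 2 := by
  have h1 : (rr B j k : ℝ) ≤ ∑ x ∈ SS B j k, (fib B j x : ℝ) := by exact_mod_cast rr_le B j k
  have h2 : (rr B j k : ℝ) ^ 2 ≤ (∑ x ∈ SS B j k, (fib B j x : ℝ)) ^ 2 :=
    pow_le_pow_left₀ (Nat.cast_nonneg _) h1 2
  have h3 : (∑ x ∈ SS B j k, (fib B j x : ℝ)) ^ 2 ≤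
      ((SS B j k).card : ℝ) * ∑ x ∈ SS B j k, (fib B j x : ℝ) ^ 2 := sq_sum_le_card_mul_sum_sq
  have h4 : ((SS B j k).card : ℝ) ≤ (k.divisors.card : ℝ) := by exact_mod_cast card_SS B j k hk
  exact h2.trans (h3.trans (mul_le_mul_of_nonneg_right h4 (sum_nonneg fun _ _ => by positivity)))

lemma sum_SS (B j : ℕ) : ∑ k ∈ Icc 1 (B ^ 2), ∑ x ∈ SS B j k, (fib B j x : ℝ) ^ 2 =
    ∑ x ∈ TT B j, (fib B j x : ℝ) ^ 2 := by
  refine sum_fiberwise_of_maps_to (fun x hx => ?_) _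
  have hx' := mem_TT.1 hx
  rw [mem_Icc]
  unfold ker
  constructor
  · have : 0 < x.1 * (x.1 - x.2) := Nat.mul_pos (by omega) (by omega)
    omega
  · rw [sq]
    exact Nat.mul_le_mul hx'.1.2 ((Nat.sub_le _ _).trans hx'.1.2)

lemma one_add_log_le {ε X Y : ℝ} (hε : 0 < ε) (hY : 1 ≤ Y) (hX : Y ≤ X) :
    1 + Real.log Y ≤ (1 + 1 / ε) * X ^ ε := by
  have h1 : 1 ≤ X ^ ε := Real.one_le_rpow (hY.trans hX) hε.le
  have h2 : Real.log Y ≤ Real.log X := Real.log_le_log (by linarith) hX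
  have h3 := Real.log_le_rpow_div (show 0 ≤ X by linarith) hε
  have h4 : (1 + 1 / ε) * X ^ ε = X ^ ε + X ^ ε / ε := by ring
  linarith

theorem t_SQC : S_SQC := by
  intro η hη
  obtain ⟨C₁, hC₁, hdiv⟩ := H353.divisor_bound_real (η / 3 / 2) (by positivity)
  have hε : 0 < η / 3 := by positivity
  refine ⟨C₁ * ((1 + 1 / (η / 3)) * (1 + 1 / (η / 3))), by positivity, ?_⟩
  intro B j hj hjB
  have hB : 1 ≤ B := hj.trans hjB
  have hBr : (1 : ℝ) ≤ B := by exact_mod_cast hB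
  have hjr : (1 : ℝ) ≤ j := by exact_mod_cast hj
  obtain ⟨X, hX⟩ : ∃ X : ℝ, X = (B : ℝ) * j := ⟨_, rfl⟩
  have hBX : (B : ℝ) ≤ X := by rw [hX]; nlinarith
  have hjX : (j : ℝ) ≤ X := by rw [hX]; nlinarith
  have hX1 : 1 ≤ X := hBr.trans hBX
  have hX0 : 0 < X := by linarith
  have hdk : ∀ k ∈ Icc 1 (B ^ 2), (k.divisors.card : ℝ) ≤ C₁ * X ^ (η / 3) := by
    intro k hk
    rw [mem_Icc] at hk
    refine (hdiv k (by omega)).trans (mul_le_mul_of_nonneg_left ?_ hC₁.le)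
    have h1 : (k : ℝ) ≤ (B : ℝ) ^ (2 : ℕ) := by exact_mod_cast hk.2
    calc (k : ℝ) ^ (η / 3 / 2) ≤ ((B : ℝ) ^ (2 : ℕ)) ^ (η / 3 / 2) :=
          Real.rpow_le_rpow (Nat.cast_nonneg _) h1 (by positivity)
      _ = (B : ℝ) ^ (η / 3) := by
          rw [← Real.rpow_natCast, ← Real.rpow_mul (by positivity)]
          congr 1
          push_cast
          ring
      _ ≤ X ^ (η / 3) := Real.rpow_le_rpow (by positivity) hBX (by positivity)
  calc ∑ k ∈ Icc 1 (B ^ 2), ((rr B j k : ℕ) : ℝ) ^ 2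
      ≤ ∑ k ∈ Icc 1 (B ^ 2), (C₁ * X ^ (η / 3)) * ∑ x ∈ SS B j k, (fib B j x : ℝ) ^ 2 := by
        refine sum_le_sum fun k hk => ?_
        refine (rr_sq B j k (mem_Icc.1 hk).1).trans ?_
        exact mul_le_mul_of_nonneg_right (hdk k hk) (sum_nonneg fun _ _ => by positivity)
    _ = (C₁ * X ^ (η / 3)) * ∑ x ∈ TT B j, (fib B j x : ℝ) ^ 2 := by
        rw [← mul_sum, sum_SS]
    _ ≤ (C₁ * X ^ (η / 3)) * (X * (((1 + 1 / (η / 3)) * X ^ (η / 3)) *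
          ((1 + 1 / (η / 3)) * X ^ (η / 3)))) := by
        refine mul_le_mul_of_nonneg_left ?_ (by positivity)
        refine (sum_fib B j).trans ?_
        rw [← hX]
        refine mul_le_mul_of_nonneg_left ?_ hX0.le
        exact mul_le_mul (one_add_log_le hε hBr hBX) (one_add_log_le hε hjr hjX)
          (add_nonneg zero_le_one (Real.log_natCast_nonneg j)) (by positivity)
    _ = C₁ * ((1 + 1 / (η / 3)) * (1 + 1 / (η / 3))) * X ^ (1 + η) := by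
        have h1 : X ^ (1 + η) = X * (X ^ (η / 3) * X ^ (η / 3) * X ^ (η / 3)) := by
          rw [← Real.rpow_add hX0, ← Real.rpow_add hX0]
          nth_rewrite 2 [← Real.rpow_one X]
          rw [← Real.rpow_add hX0]
          congr 1
          ring
        rw [h1]
        ring
    _ = C₁ * ((1 + 1 / (η / 3)) * (1 + 1 / (η / 3))) * ((B : ℝ) * j) ^ (1 + η) := by rw [hX]

end Pool.Agent.K1H36.GC
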